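import Pool.Agent.H84.SM.Targets
import Pool.Agent.H64.SC.Api

/-!
# Board smc_modules: INT
-/

set_option autoImplicit false

namespace Pool.Agent.H88.SM

open MvPolynomial SC Pool.Agent.H27.LV Pool.Agent.H84.SM

section

variable {k K : Type} [Field k] [Field K] [Algebra k K] (v : DV k K)

lemma ge_iff (z : K) : ge v 0 z ↔ z ∈ v.vs := by
  rw [DV.mem_vs]
  unfold ge
  constructor
  · rintro (h | h)
    · rw [h, v.ord_zero]
    · exact h
  · exact Or.inr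

lemma alg_mem (c : k) : algebraMap k K c ∈ v.vs := by
  rw [DV.mem_vs, v.ord_base]

lemma aeval_mem {σ : Type} (f : σ → K) (hf : ∀ i, f i ∈ v.vs) (P : MvPolynomial σ k) :
    aeval f P ∈ v.vs := by
  induction P using MvPolynomial.induction_on with
  | C a =>
    rw [algHom_C]
    exact alg_mem v a
  | add p q hp hq =>
    rw [map_add]
    exact v.vs.add_mem _ _ hp hq
  | mul_X p i hp =>
    rw [map_mul, aeval_X]
    exact v.vs.mul_mem _ _ hp (hf i)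

lemma evl_mem (l : Fin 3) (g : K) (x q s : Fin 3 → K) (hx : ∀ i, x i ∈ v.vs)
    (hq : ∀ i, q i ∈ v.vs) (hs : ∀ i, s i ∈ v.vs) (hg : g ∈ v.vs) (P : P2 k) :
    evl l g x q s P ∈ v.vs := by
  unfold evl
  rw [Polynomial.coe_eval₂RingHom, Polynomial.eval₂_eq_sum_range]
  refine sum_mem fun j _ => v.vs.mul_mem _ _ ?_ (pow_mem (v.vs.mul_mem _ _ hg (hs l)) j)
  refine aeval_mem v _ (fun i => ?_) _
  rcases i with i | i
  · exact hx i
  · fin_cases i
    · exact v.vs.mul_mem _ _ hg (hq _)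
    · exact v.vs.mul_mem _ _ hg (hq _)

end

theorem pf_INT (hJPC : T_JPC) (hVAL : T_VAL) (_hCMP : T_CMP) (_hGPR : T_GPR) : T_INT := by
  intro k K _ _ _ _ _ G d hd hG _ v θ x hθ hx hl hGx hlc n M τ N hN
  obtain ⟨l, hl0, hl1⟩ := hl
  obtain ⟨hinv, ⟨e, -, hBH⟩, hdiv⟩ := hN
  obtain ⟨N1, hN1⟩ := hdiv l
  obtain ⟨hJP, -, hev⟩ := hJPC k K G d θ x (by omega) hG.1 hGx
  have h1 := hev e n N hinv hBH
  have hg : (gr G x l)⁻¹ * gr G x l = 1 := inv_mul_cancel₀ hl0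
  obtain ⟨h2, h3⟩ := hVAL k G d hG.1 K x (qc G d θ x) (sc G d θ x) l (gr G x l)⁻¹ hJP hg N
  rw [hN1, map_mul, map_pow, h3, h1] at h2
  have h4 : evc θ x N / aeval x G ^ M = evl l (gr G x l)⁻¹ x (qc G d θ x) (sc G d θ x) N1 := by
    rw [← h2, mul_comm, mul_div_assoc, div_self (pow_ne_zero _ hGx), mul_one]
  rw [h4, ge_iff]
  have hθ' : ∀ z ∈ v.vs, θ z ∈ v.vs := fun z hz => (ge_iff v _).1 (hθ z hz)
  have hlc' : lc G d θ x ∈ v.vs := by
    have h5 : lc G d θ x = θ (aeval x G) / aeval x G * (algebraMap k K (d : k))⁻¹ := by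
      unfold lc
      rw [map_natCast, div_mul_eq_div_div_swap, div_eq_mul_inv]
    rw [h5]
    refine v.vs.mul_mem _ _ ((ge_iff v _).1 hlc) ?_
    rw [DV.mem_vs, v.ord_inv, v.ord_base, neg_zero]
  have hq : ∀ i, qc G d θ x i ∈ v.vs := fun i => by
    unfold qc
    exact sub_mem (hθ' _ (hx i)) (v.vs.mul_mem _ _ hlc' (hx i))
  have hq' : ∀ i, θ (qc G d θ x i) - lc G d θ x * qc G d θ x i ∈ v.vs := fun i =>
    sub_mem (hθ' _ (hq i)) (v.vs.mul_mem _ _ hlc' (hq i))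
  refine evl_mem v l _ x _ _ hx hq (fun i => ?_) ?_ N1
  · unfold sc cr
    exact sub_mem (v.vs.mul_mem _ _ (hq _) (hq' _)) (v.vs.mul_mem _ _ (hq _) (hq' _))
  · rw [DV.mem_vs, v.ord_inv, hl1, neg_zero]

end Pool.Agent.H88.SM
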