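import Pool.Agent.H84.SM.Targets

/-!
# Board smc_modules: THE
-/

set_option autoImplicit false

namespace Pool.Agent.H88.SM

open MvPolynomial Pool.Agent.H84.SM

/-- Scaling of the variables `y`. -/
lemma aeval_scale {k L : Type} [Field k] [CommRing L] [Algebra k L] (x y : Fin 3 → L) (g : L)
    (i : ℕ) (c : A2 k) (hc : IsWeightedHomogeneous wy c i) :
    aeval (Sum.elim x fun j => g * y j) c = g ^ i * aeval (Sum.elim x y) c := by
  rw [aeval_def, aeval_def, eval₂_eq', eval₂_eq', Finset.mul_sum]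
  refine Finset.sum_congr rfl fun m hm => ?_
  have h1 := hc (mem_support_iff.1 hm)
  rw [Finsupp.weight_apply, Finsupp.sum_fintype _ _ (fun i => by simp), Fintype.sum_sum_type] at h1
  simp only [wy, Sum.elim_inl, Sum.elim_inr, smul_eq_mul, mul_zero, Finset.sum_const_zero,
    zero_add, mul_one] at h1
  rw [Fintype.prod_sum_type, Fintype.prod_sum_type]
  simp only [Sum.elim_inl, Sum.elim_inr, mul_pow]
  rw [Finset.prod_mul_distrib, Finset.prod_pow_eq_pow_sum, h1]
  ring

lemma hs_scale {k L : Type} [Field k] [CommRing L] [Algebra k L] (G : MvPolynomial (Fin 3) k)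
    (x y : Fin 3 → L) (g : L) : hs G x (fun j => g * y j) = g ^ 2 * hs G x y := by
  unfold hs
  rw [Finset.mul_sum]
  refine Finset.sum_congr rfl fun i _ => ?_
  rw [Finset.mul_sum]
  refine Finset.sum_congr rfl fun j _ => ?_
  ring

/-- A homomorphism which fixes the variables `x`. -/
lemma fix_x {k : Type} [Field k] (θ : B2 k →ₐ[k] B2 k) (hθ : ∀ i, θ (xb i) = xb i)
    (P : MvPolynomial (Fin 3) k) : θ (aeval xb P) = aeval xb P := by
  have h : θ.comp (aeval xb) = aeval xb := by
    refine algHom_ext fun i => ?_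
    simp only [AlgHom.comp_apply, aeval_X, hθ]
  exact congrArg (fun f => f P) h

lemma fix_hs {k : Type} [Field k] (θ : B2 k →ₐ[k] B2 k) (hθ : ∀ i, θ (xb i) = xb i)
    (G : MvPolynomial (Fin 3) k) (y : Fin 3 → B2 k) :
    θ (hs G xb y) = hs G xb fun i => θ (y i) := by
  unfold hs
  rw [map_sum]
  refine Finset.sum_congr rfl fun i _ => ?_
  rw [map_sum]
  refine Finset.sum_congr rfl fun j _ => ?_
  rw [map_mul, map_mul, fix_x θ hθ]

lemma euler {k : Type} [Field k] (G : MvPolynomial (Fin 3) k) (d : ℕ) (hG : G.IsHomogeneous d)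
    (l : Fin 3) : (d : B2 k) * aeval xb G = xb l * gr G xb l + xb (l + 1) * gr G xb (l + 1) +
      xb (l + 2) * gr G xb (l + 2) := by
  have h := congrArg (aeval (xb (k := k))) hG.sum_X_mul_pderiv
  rw [map_sum, map_nsmul, nsmul_eq_mul] at h
  rw [← h]
  simp only [map_mul, aeval_X]
  change ∑ i, xb i * gr G xb i = _
  rw [Fin.sum_univ_three]
  fin_cases l
  · simp
  · simp
    ring
  · simp
    ring

lemma key2 {k : Type} [Field k] (A g u v w : B2 k) (h : A * u + v = g ^ 3 * w) :
    (Polynomial.C A * (Polynomial.C (g ^ 3) * Polynomial.X - Polynomial.C u) - Polynomial.C v :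
      P2 k) = Polynomial.C g ^ 3 * (Polynomial.C A * Polynomial.X - Polynomial.C w) := by
  have h1 := congrArg (Polynomial.C (R := B2 k)) h
  rw [Polynomial.C_add, Polynomial.C_mul, Polynomial.C_mul, Polynomial.C_pow] at h1
  rw [Polynomial.C_pow]
  linear_combination (-1 : P2 k) * h1

theorem pf_THE : T_THE := by
  intro k _ _ G d hG l
  have e1 : l + 1 + 1 = l + 2 := by fin_cases l <;> rfl
  have e2 : l + 1 + 2 = l := by fin_cases l <;> rfl
  have n1 : l + 1 ≠ l := by fin_cases l <;> decide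
  have n2 : l + 2 ≠ l := by fin_cases l <;> decide
  have n3 : l + 2 ≠ l + 1 := by fin_cases l <;> decide
  have hcase : ∀ i : Fin 3, i = l ∨ i = l + 1 ∨ i = l + 2 := by
    intro i
    fin_cases l <;> fin_cases i <;> decide
  set θ : B2 k →ₐ[k] B2 k := aeval (Sum.elim xb
      ![gr G xb l * qb 1, - (gr G xb (l + 1) * qb 0 + gr G xb (l + 2) * qb 1)]) with hθ
  have hx : ∀ i, θ (xb i) = xb i := fun i => by
    rw [hθ]
    exact aeval_X _ _
  have hq0 : θ (qb 0) = gr G xb l * qb 1 := by
    rw [hθ]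
    exact aeval_X _ _
  have hq1 : θ (qb 1) = - (gr G xb (l + 1) * qb 0 + gr G xb (l + 2) * qb 1) := by
    rw [hθ]
    exact aeval_X _ _
  have hgr : ∀ i, θ (gr G xb i) = gr G xb i := fun i => fix_x θ hx _
  have hchy : ∀ i, θ (chy G (l + 1) i) = gr G xb (l + 1) * chy G l i := by
    intro i
    unfold chy
    rw [e1, e2]
    rcases hcase i with rfl | rfl | rfl
    · rw [if_neg n1.symm, if_neg n2.symm, if_pos rfl, map_mul, hgr, hq1]
    · rw [if_pos rfl, if_neg n1, if_pos rfl, map_neg, map_add, map_mul, map_mul, hgr, hgr, hq0,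
        hq1]
      ring
    · rw [if_neg n3, if_pos rfl, if_neg n2, if_neg n3, map_mul, hgr, hq0]
  refine ⟨_, ?_, rfl, ?_⟩
  · unfold gp
    rw [Polynomial.coe_eval₂RingHom, Polynomial.eval₂_C]
    simp only [RingHom.comp_apply, RingHom.coe_coe]
    rw [fix_x θ hx]
  · intro e n N hN
    set Θ : P2 k →+* P2 k := Polynomial.eval₂RingHom (Polynomial.C.comp (θ : B2 k →+* B2 k))
      (Polynomial.C (gr G xb (l + 1) ^ 3) * Polynomial.X -
        Polynomial.C (gr G xb (l + 1) ^ 2 * hs G xb (chy G l) * qb 1)) with hΘ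
    have hΘC : ∀ c : B2 k, Θ (Polynomial.C c) = Polynomial.C (θ c) := by
      intro c
      rw [hΘ, Polynomial.coe_eval₂RingHom, Polynomial.eval₂_C]
      rfl
    have hΘX : Θ Polynomial.X = Polynomial.C (gr G xb (l + 1) ^ 3) * Polynomial.X -
        Polynomial.C (gr G xb (l + 1) ^ 2 * hs G xb (chy G l) * qb 1) := by
      rw [hΘ, Polynomial.coe_eval₂RingHom, Polynomial.eval₂_X]
    have hHs : θ (hs G xb (chy G (l + 1))) = gr G xb (l + 1) ^ 2 * hs G xb (chy G l) := by
      rw [fix_hs θ hx]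
      simp only [hchy]
      exact hs_scale _ _ _ _
    have a1 : θ ((d : B2 k) * aeval xb G) = (d : B2 k) * aeval xb G := by
      rw [map_mul, map_natCast, fix_x θ hx]
    have a2 : θ (hs G xb (chy G (l + 1)) * (xb (l + 1 + 1) * qb 1 - xb (l + 1 + 2) * qb 0)) =
        gr G xb (l + 1) ^ 2 * hs G xb (chy G l) *
          (xb (l + 2) * -(gr G xb (l + 1) * qb 0 + gr G xb (l + 2) * qb 1) -
            xb l * (gr G xb l * qb 1)) := by
      rw [map_mul, map_sub, map_mul, map_mul, hHs, hx, hx, hq0, hq1, e1, e2]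
    have he := euler G d hG l
    have hchw : Θ (chw G d (l + 1)) = Polynomial.C (gr G xb (l + 1)) ^ 3 * chw G d l := by
      unfold chw
      rw [map_sub, map_mul, hΘC, hΘX, hΘC, a1, a2]
      exact key2 _ _ _ _ _ (by rw [he]; ring)
    have hPsi : ∀ l', Psi G d l' N = N.sum fun j c =>
        Polynomial.C (aeval (Sum.elim xb (chy G l')) c) * chw G d l' ^ j := by
      intro l'
      unfold Psi
      rw [Polynomial.coe_eval₂RingHom, Polynomial.eval₂_eq_sum]
      rfl
    rw [hPsi, hPsi, Polynomial.sum_def, Polynomial.sum_def, map_sum, Finset.mul_sum]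
    refine Finset.sum_congr rfl fun j hj => ?_
    have hc : N.coeff j ≠ 0 := Polynomial.mem_support_iff.1 hj
    have hjn : 3 * j ≤ n := by
      by_contra h
      exact hc ((hN j).2 (by omega))
    have hw := ((hN j).1 hjn).2
    have h1 : θ (aeval (Sum.elim xb (chy G (l + 1))) (N.coeff j)) =
        gr G xb (l + 1) ^ (n - 3 * j) * aeval (Sum.elim xb (chy G l)) (N.coeff j) := by
      rw [← aeval_scale xb (chy G l) (gr G xb (l + 1)) (n - 3 * j) _ hw]
      have h2 : θ.comp (aeval (Sum.elim xb (chy G (l + 1)))) =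
          aeval (Sum.elim xb fun j => gr G xb (l + 1) * chy G l j) := by
        refine algHom_ext fun i => ?_
        rcases i with i | i
        · simp only [AlgHom.comp_apply, aeval_X, Sum.elim_inl, hx]
        · simp only [AlgHom.comp_apply, aeval_X, Sum.elim_inr, hchy]
      exact congrArg (fun f => f (N.coeff j)) h2
    rw [map_mul, map_pow, hΘC, hchw, h1, Polynomial.C_mul, Polynomial.C_pow, mul_pow, ← pow_mul]
    have h3 : Polynomial.C (gr G xb (l + 1)) ^ n =
        Polynomial.C (gr G xb (l + 1)) ^ (n - 3 * j) *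
          (Polynomial.C (gr G xb (l + 1)) ^ (3 * j) : P2 k) := by
      rw [← pow_add]
      congr 1
      omega
    rw [h3]
    ring

end Pool.Agent.H88.SM
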