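import Pool.Agent.H20.SM.Targets

/-!
# MP_347b49_nt, special moduli: the relations modulo `q` (helper88)
-/

set_option autoImplicit false

open NumberField NumberField.InfinitePlace Complex Filter Topology MeasureTheory

namespace Pool.Agent.H88.SM

open Pool.Agent.H28.RC Pool.Agent.H25.HK Pool.Agent.H37.CV Pool.Agent.H20.SM

/-- the last estimate tends to zero -/
theorem SRq_lim (K1 K2 η : ℝ) (k : ℕ) (hη : 0 < η) :
    ∀ᶠ y : ℝ in atTop, K1 / y + K2 * (y ^ k * Real.exp (-(y / 2))) ≤ η := by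
  have h1 : Tendsto (fun y : ℝ => K1 / y) atTop (𝓝 0) := tendsto_const_nhds.div_atTop tendsto_id
  have h2 : Tendsto (fun y : ℝ => y ^ k * Real.exp (-(y / 2))) atTop (𝓝 0) := by
    have h3 := (Real.tendsto_pow_mul_exp_neg_atTop_nhds_zero k).comp
      (tendsto_id.atTop_div_const (show (0 : ℝ) < 2 by norm_num))
    have h4 := h3.const_mul ((2 : ℝ) ^ k)
    rw [mul_zero] at h4
    refine h4.congr fun y => ?_
    simp only [Function.comp, id, div_pow]
    field_simp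
  have h5 := h1.add (h2.const_mul K2)
  simp only [mul_zero, add_zero] at h5
  filter_upwards [h5.eventually (gt_mem_nhds hη)] with y hy
  exact hy.le

theorem SRq_real (n D ε₁ C1 C2 C3 C4 C5 M0 δ η : ℝ) (E E' A B : ℕ) (hn : 1 ≤ n) (hD : 1 ≤ D)
    (hE : 1 ≤ E) (hA : E' + 1 ≤ A) (h1 : 0 < ε₁) (h2 : ε₁ < 1 / 2) (hC1 : 0 < C1) (hC2 : 0 < C2)
    (hC3 : 0 ≤ C3) (hC4 : 0 < C4) (hC5 : 0 < C5) (hδ : 0 < δ) (hη : 0 < η) :
    ∃ y0 : ℝ, 1 ≤ y0 ∧ ∀ y T rc : ℝ, y0 ≤ y → y ^ (A + 1) / 2 ≤ T → T ≤ 2 * y ^ (A + 1) →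
      0 ≤ rc → rc ≤ 2 * n * y ^ A * Real.exp (-(y / 2)) →
      16 * E * y < T ∧ Real.log D ≤ n * T ∧
      Real.log (max M0 1) ≤ (1 / 2 - ε₁) * (n * T) ∧
      16 * E * y ≤ δ * ((1 / 2 - ε₁) * (n * T)) ∧
      E * y - 3 * ε₁ / 4 * (n * T) ≤ -y ∧
      (C1 * (1 + (Real.log D + n * T) + (1 / 2 - ε₁) * (n * T)) ^ B * rc +
        C2 / ((1 / 2 - ε₁) * (n * T))) * (C3 * (1 + 16 * E * y) ^ E') +
      C4 * (1 + (Real.log D + n * T) + (1 / 2 - ε₁) * (n * T)) ^ 4 *
        (C5 * (Real.exp (-(4 * E * y)) + D * Real.exp (-y))) ≤ η := by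
  have hlD : 0 ≤ Real.log D := Real.log_nonneg hD
  have hE' : (1 : ℝ) ≤ E := by exact_mod_cast hE
  have hκ : 0 < 1 / 2 - ε₁ := by linarith
  set κ : ℝ := 1 / 2 - ε₁ with hκdef
  have hκ1 : κ ≤ 1 / 2 := by rw [hκdef]; linarith
  set c2 : ℝ := 1 + Real.log D + 3 * n with hc2
  have hc2p : 0 < c2 := by positivity
  set K1 : ℝ := C2 / (κ / 2) * (C3 * (17 * E) ^ E') with hK1
  set K2 : ℝ := C1 * c2 ^ B * (2 * n) * (C3 * (17 * E) ^ E') + C4 * c2 ^ 4 * (C5 * (1 + D)) with hK2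
  set k : ℕ := (A + 1) * B + A + E' + 4 * (A + 1) with hk
  have hev : ∀ᶠ y : ℝ in atTop, 1 ≤ y ∧ 32 * E < y ∧ 2 * Real.log D ≤ y ∧
      2 * Real.log (max M0 1) / κ ≤ y ∧ 32 * E / (δ * κ) ≤ y ∧ 8 * (E + 1) / (3 * ε₁) ≤ y ∧
      K1 / y + K2 * (y ^ k * Real.exp (-(y / 2))) ≤ η := by
    filter_upwards [eventually_ge_atTop 1, eventually_gt_atTop (32 * (E : ℝ)),
      eventually_ge_atTop (2 * Real.log D), eventually_ge_atTop (2 * Real.log (max M0 1) / κ),
      eventually_ge_atTop (32 * E / (δ * κ)), eventually_ge_atTop (8 * (E + 1) / (3 * ε₁)),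
      SRq_lim K1 K2 η k hη] with y a1 a2 a3 a4 a5 a6 a7
    exact ⟨a1, a2, a3, a4, a5, a6, a7⟩
  obtain ⟨y0, hy0⟩ := eventually_atTop.1 hev
  refine ⟨max y0 1, le_max_right _ _, ?_⟩
  intro y T rc hy hT1 hT2 hrc0 hrc
  obtain ⟨a1, a2, a3, a4, a5, a6, a7⟩ := hy0 y ((le_max_left _ _).trans hy)
  have hy0' : 0 < y := by linarith
  -- powers of `y`
  have p1 : y ≤ y ^ (A + 1) := le_self_pow₀ a1 (by omega)
  have p2 : y ^ 2 ≤ y ^ (A + 1) := pow_le_pow_right₀ a1 (by omega)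
  have hT : y ^ 2 / 2 ≤ T := by linarith
  have hT0 : 0 < T := lt_of_lt_of_le (by positivity) hT
  have hnT : T ≤ n * T := le_mul_of_one_le_left hT0.le hn
  have hnT0 : 0 < n * T := by linarith
  have hYp : 0 < y ^ (A + 1) := by positivity
  have hyy : y ≤ y ^ 2 := le_self_pow₀ a1 (by norm_num)
  have hEy : y ≤ E * y := le_mul_of_one_le_left hy0'.le hE'
  have q1 : 16 * E * y < T := by
    have h3 : 32 * E * y < y * y := mul_lt_mul_of_pos_right a2 hy0'
    linarith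
  have q2 : Real.log D ≤ n * T := by linarith
  have q3 : Real.log (max M0 1) ≤ κ * (n * T) := by
    rw [div_le_iff₀ hκ] at a4
    have h3 : κ * (y ^ 2 / 2) ≤ κ * (n * T) := mul_le_mul_of_nonneg_left (by linarith) hκ.le
    have h4 : y * κ ≤ y ^ 2 * κ := mul_le_mul_of_nonneg_right hyy hκ.le
    linarith
  have q4 : 16 * E * y ≤ δ * (κ * (n * T)) := by
    rw [div_le_iff₀ (by positivity)] at a5
    have h3 : δ * κ * (y ^ 2 / 2) ≤ δ * κ * (n * T) :=
      mul_le_mul_of_nonneg_left (by linarith) (by positivity)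
    have h4 : 32 * E * y ≤ y * (δ * κ) * y := mul_le_mul_of_nonneg_right a5 hy0'.le
    linarith
  have q5 : E * y - 3 * ε₁ / 4 * (n * T) ≤ -y := by
    rw [div_le_iff₀ (by positivity)] at a6
    have h3 : 3 * ε₁ / 4 * (y ^ 2 / 2) ≤ 3 * ε₁ / 4 * (n * T) :=
      mul_le_mul_of_nonneg_left (by linarith) (by positivity)
    have h4 : 8 * (E + 1) * y ≤ y * (3 * ε₁) * y := mul_le_mul_of_nonneg_right a6 hy0'.le
    linarith
  refine ⟨q1, q2, q3, q4, q5, ?_⟩
  set W : ℝ := 1 + (Real.log D + n * T) + κ * (n * T) with hW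
  have hW0 : 0 ≤ W := by positivity
  have hW1 : W ≤ c2 * y ^ (A + 1) := by
    have h3 : n * T ≤ n * (2 * y ^ (A + 1)) :=
      mul_le_mul_of_nonneg_left hT2 (by linarith)
    have h4 : κ * (n * T) ≤ 1 / 2 * (n * T) := mul_le_mul_of_nonneg_right hκ1 hnT0.le
    have h5 : 1 ≤ y ^ (A + 1) := one_le_pow₀ a1
    have h6 : (1 + Real.log D) * 1 ≤ (1 + Real.log D) * y ^ (A + 1) :=
      mul_le_mul_of_nonneg_left h5 (by linarith)
    rw [hW, hc2]
    linarith
  have hL : (1 + 16 * E * y) ^ E' ≤ (17 * E) ^ E' * y ^ E' := by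
    rw [← mul_pow]
    apply pow_le_pow_left₀ (by positivity)
    linarith
  have e0 : 0 < Real.exp (-(y / 2)) := Real.exp_pos _
  have ypow : ∀ a : ℕ, a ≤ k → y ^ a ≤ y ^ k := fun a ha => pow_le_pow_right₀ a1 ha
  -- the first part
  have t1 : C1 * W ^ B * rc * (C3 * (1 + 16 * E * y) ^ E') ≤
      C1 * c2 ^ B * (2 * n) * (C3 * (17 * E) ^ E') * (y ^ k * Real.exp (-(y / 2))) := by
    calc C1 * W ^ B * rc * (C3 * (1 + 16 * E * y) ^ E')
        ≤ C1 * (c2 * y ^ (A + 1)) ^ B * (2 * n * y ^ A * Real.exp (-(y / 2))) *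
          (C3 * ((17 * E) ^ E' * y ^ E')) := by
          gcongr
      _ = C1 * c2 ^ B * (2 * n) * (C3 * (17 * E) ^ E') *
          (y ^ ((A + 1) * B + A + E') * Real.exp (-(y / 2))) := by
          rw [mul_pow, ← pow_mul, pow_add, pow_add]
          ring
      _ ≤ _ := by
          have := ypow ((A + 1) * B + A + E') (by omega)
          gcongr
  have t2 : C2 / (κ * (n * T)) * (C3 * (1 + 16 * E * y) ^ E') ≤ K1 / y := by
    have h3 : κ / 2 * y ^ (A + 1) ≤ κ * (n * T) := by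
      have h5 : κ * (y ^ (A + 1) / 2) ≤ κ * (n * T) :=
        mul_le_mul_of_nonneg_left (hT1.trans hnT) hκ.le
      linarith
    have h4 : y ^ E' * y ≤ y ^ (A + 1) := by
      rw [← pow_succ]
      exact pow_le_pow_right₀ a1 (by omega)
    calc C2 / (κ * (n * T)) * (C3 * (1 + 16 * E * y) ^ E')
        ≤ C2 / (κ / 2 * y ^ (A + 1)) * (C3 * ((17 * E) ^ E' * y ^ E')) := by
          gcongr
      _ = K1 * (y ^ E' / y ^ (A + 1)) := by
          rw [hK1]
          field_simp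
      _ ≤ K1 * (1 / y) := by
          have hK1' : 0 ≤ K1 := by rw [hK1]; positivity
          apply mul_le_mul_of_nonneg_left _ hK1'
          rw [div_le_div_iff₀ hYp hy0', one_mul]
          exact h4
      _ = K1 / y := by ring
  have t3 : C4 * W ^ 4 * (C5 * (Real.exp (-(4 * E * y)) + D * Real.exp (-y))) ≤
      C4 * c2 ^ 4 * (C5 * (1 + D)) * (y ^ k * Real.exp (-(y / 2))) := by
    have h3 : Real.exp (-(4 * E * y)) ≤ Real.exp (-(y / 2)) := by
      apply Real.exp_le_exp.mpr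
      linarith
    have h4 : Real.exp (-y) ≤ Real.exp (-(y / 2)) := by
      apply Real.exp_le_exp.mpr
      linarith
    calc C4 * W ^ 4 * (C5 * (Real.exp (-(4 * E * y)) + D * Real.exp (-y)))
        ≤ C4 * (c2 * y ^ (A + 1)) ^ 4 *
          (C5 * (Real.exp (-(y / 2)) + D * Real.exp (-(y / 2)))) := by
          gcongr
      _ = C4 * c2 ^ 4 * (C5 * (1 + D)) * (y ^ (4 * (A + 1)) * Real.exp (-(y / 2))) := by
          rw [mul_pow, ← pow_mul, mul_comm (A + 1) 4]
          ring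
      _ ≤ _ := by
          have := ypow (4 * (A + 1)) (by omega)
          gcongr
  calc (C1 * W ^ B * rc + C2 / (κ * (n * T))) * (C3 * (1 + 16 * E * y) ^ E') +
      C4 * W ^ 4 * (C5 * (Real.exp (-(4 * E * y)) + D * Real.exp (-y)))
      = C1 * W ^ B * rc * (C3 * (1 + 16 * E * y) ^ E') +
        C2 / (κ * (n * T)) * (C3 * (1 + 16 * E * y) ^ E') +
        C4 * W ^ 4 * (C5 * (Real.exp (-(4 * E * y)) + D * Real.exp (-y))) := by ring
    _ ≤ C1 * c2 ^ B * (2 * n) * (C3 * (17 * E) ^ E') * (y ^ k * Real.exp (-(y / 2))) + K1 / y +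
        C4 * c2 ^ 4 * (C5 * (1 + D)) * (y ^ k * Real.exp (-(y / 2))) := by
        linarith
    _ = K1 / y + K2 * (y ^ k * Real.exp (-(y / 2))) := by
        rw [hK2]
        ring
    _ ≤ η := a7


section

variable {K : Type} [Field K] [NumberField K]

theorem SRq_nm_ge {I : Ideal (𝓞 K)} (h : I ≠ ⊥) : 1 ≤ nm I := by
  unfold nm
  have h1 : Ideal.absNorm I ≠ 0 := fun h0 => h (Ideal.absNorm_eq_zero_iff.1 h0)
  exact_mod_cast Nat.one_le_iff_ne_zero.2 h1

theorem SRq_wt_nonneg (p : Ideal (𝓞 K) × Ideal (𝓞 K)) : 0 ≤ wt p := by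
  have h1 : 0 ≤ nm p.1 := Nat.cast_nonneg _
  have h2 : 0 ≤ nm p.2 := Nat.cast_nonneg _
  unfold wt
  positivity

theorem SRq_rc_nonneg (m : Ideal (𝓞 K)) : 0 ≤ rc m := by
  unfold rc
  refine Finset.sum_nonneg fun P _ => ?_
  have : 0 ≤ np P := Nat.cast_nonneg _
  positivity

theorem SRq_qd (q : ℕ) (hq : Squarefree q) : qd q (qi K q) = q := by
  classical
  have h1 : Pd q (qi K q) = ∅ := by
    unfold Pd
    rw [Finset.filter_eq_empty_iff]
    intro p hp
    rw [not_not]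
    unfold qi
    rw [Ideal.span_singleton_le_span_singleton]
    exact Nat.cast_dvd_cast (Nat.dvd_of_mem_primeFactors hp)
  unfold qd
  rw [h1, Finset.sdiff_empty]
  exact Nat.prod_primeFactors_of_squarefree hq

end

theorem pf_SRq (hNCR : T_NCR) (hPAR : T_PAR) (hNCG : T_NCG) (hSNO : T_SNO) (hCHT : T_CHT)
    (hDTr : T_DTr) (hRS : T_RS) (hDEg : T_DEg) : T_SRq := by
  classical
  intro F _ _ _ _
  obtain ⟨CN, E, -, hE, hNCR⟩ := hNCR F
  obtain ⟨C3, E', hSNO⟩ := hSNO F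
  refine ⟨E' + 1, ?_⟩
  intro A ε₁ η hA h1 h2 hη
  obtain ⟨x1, hNCR⟩ := hNCR A
  obtain ⟨x2, hPAR⟩ := hPAR F A
  have hκ : 0 < 1 / 2 - ε₁ := by linarith
  set ε : ℝ := min (1 / 64) (ε₁ / 8) with hε
  have hε0 : 0 < ε := lt_min (by norm_num) (by linarith)
  have hε1 : ε ≤ 1 / 64 := min_le_left _ _
  have hε2 : ε ≤ ε₁ / 8 := min_le_right _ _
  obtain ⟨C5, hC5, hCHT⟩ := hCHT F ε hε0 hε1
  obtain ⟨C4, hC4, hDTr⟩ := hDTr F 2
  obtain ⟨C1, B, hC1, hRS⟩ := hRS F
  obtain ⟨δ, C2, M0, hδ, hC2, hDEg⟩ := hDEg F ε₁ (2 / (1 / 2 - ε₁)) h1 (by positivity)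
  set n : ℝ := (Module.finrank ℚ F : ℝ) with hn
  have hn1 : 1 ≤ n := by
    rw [hn]
    exact_mod_cast (Module.finrank_pos : 0 < Module.finrank ℚ F)
  set D : ℝ := |(discr F : ℝ)| with hD
  have hD1 : 1 ≤ D := by
    rw [hD]
    exact_mod_cast Int.one_le_abs (discr_ne_zero F)
  obtain ⟨y0, hy01, hreal⟩ := SRq_real n D ε₁ C1 C2 |C3| C4 C5 M0 δ η E E' A B hn1 hD1 hE hA h1 h2
    hC1 hC2 (abs_nonneg _) hC4 hC5 hδ hη
  refine ⟨max (max x1 x2) (Real.exp y0), ?_⟩
  intro x q hx hq X hX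
  have hxe : Real.exp y0 ≤ x := (le_max_right _ _).trans hx
  have hx1 : x1 ≤ x := ((le_max_left _ _).trans (le_max_left _ _)).trans hx
  have hx2 : x2 ≤ x := ((le_max_right _ _).trans (le_max_left _ _)).trans hx
  have hx0 : 0 < x := lt_of_lt_of_le (Real.exp_pos _) hxe
  set y : ℝ := Real.log x with hy
  have hxy : Real.exp y = x := Real.exp_log hx0
  have hyy0 : y0 ≤ y := (Real.le_log_iff_exp_le hx0).2 hxe
  obtain ⟨-, -, hNCR⟩ := hNCR x q hx1 hq
  obtain ⟨hT1, hT2, hrc, hlogN⟩ := hPAR x q hx2 hq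
  set m : Ideal (𝓞 F) := qi F q with hm
  obtain ⟨huc, -, -⟩ := hNCR m le_rfl
  set T : ℝ := Real.log q with hT
  have hrc0 : 0 ≤ rc m := SRq_rc_nonneg m
  have hsq : Real.sqrt x = Real.exp (y / 2) := by
    rw [← hxy, Real.sqrt_eq_iff_mul_self_eq (Real.exp_pos _).le (Real.exp_pos _).le, ← Real.exp_add]
    congr 1
    ring
  have hrc' : rc m ≤ 2 * n * y ^ A * Real.exp (-(y / 2)) := by
    refine hrc.trans (le_of_eq ?_)
    rw [hsq, Real.exp_neg]
    rfl
  obtain ⟨g1, g2, g3, g4, g5, g6⟩ := hreal y T (rc m) hyy0 hT1 hT2 hrc0 hrc'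
  have hy1 : 1 ≤ y := hy01.trans hyy0
  have hE' : (1 : ℝ) ≤ E := by exact_mod_cast hE
  have hT0 : 0 < T := lt_of_le_of_lt (by positivity) g1
  have hnT0 : 0 < n * T := by positivity
  -- the norm of `q`
  set N : ℝ := nm m with hN
  have hN0 : 0 ≤ N := Nat.cast_nonneg _
  have hNe : N = Real.exp (n * T) := by
    have h3 : N ≠ 0 := by
      intro h0
      rw [h0, Real.log_zero] at hlogN
      linarith
    rw [← hlogN, Real.exp_log (lt_of_le_of_ne hN0 (Ne.symm h3))]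
  have hNpos : 0 < N := by rw [hNe]; exact Real.exp_pos _
  have hN1 : 1 ≤ N := by rw [hNe]; exact Real.one_le_exp hnT0.le
  have hmb : m ≠ ⊥ := by
    intro h0
    have : N = 0 := by
      rw [hN, h0]
      unfold nm
      rw [Ideal.absNorm_bot]
      simp
    linarith
  set M : ℝ := Mo F ε₁ q with hM
  have hMe : M = Real.exp ((1 / 2 - ε₁) * (n * T)) := by
    have h3 : M = N ^ (1 / 2 - ε₁) := rfl
    rw [h3, hNe, ← Real.exp_mul]
    congr 1
    ring
  have hMpos : 0 < M := by rw [hMe]; exact Real.exp_pos _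
  have hlogM : Real.log M = (1 / 2 - ε₁) * (n * T) := by rw [hMe, Real.log_exp]
  have hM1 : 1 ≤ M := by rw [hMe]; exact Real.one_le_exp (by positivity)
  have hM0 : M0 ≤ M := by
    refine (le_max_left M0 1).trans ?_
    rw [hMe]
    exact (Real.log_le_iff_le_exp (by positivity)).1 g3
  set Q : ℝ := cnd F m with hQ
  have hQe : Q = D * N := rfl
  have hNQ : N ≤ Q := by
    rw [hQe]
    exact le_mul_of_one_le_left hN0 hD1
  have hQ1 : 1 ≤ Q := hN1.trans hNQ
  have hlogQ : Real.log Q = Real.log D + n * T := by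
    rw [hQe, Real.log_mul (by positivity) hNpos.ne', hNe, Real.log_exp]
  have hMQ : M ^ (2 + ε₁) ≤ Q := by
    refine le_trans ?_ hNQ
    rw [hMe, hNe, ← Real.exp_mul]
    apply Real.exp_le_exp.mpr
    have h3 : (1 / 2 - ε₁) * (n * T) * (2 + ε₁) =
        n * T - (3 * ε₁ / 2 + ε₁ ^ 2) * (n * T) := by ring
    rw [h3]
    have h4 : 0 ≤ (3 * ε₁ / 2 + ε₁ ^ 2) * (n * T) := by positivity
    linarith
  have hQM : Q ≤ M ^ (2 / (1 / 2 - ε₁)) := by
    have h3 : M ^ (2 / (1 / 2 - ε₁)) = N * N := by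
      rw [hMe, hNe, ← Real.exp_mul, ← Real.exp_add]
      congr 1
      have h5 : (1 / 2 - ε₁) * (2 / (1 / 2 - ε₁)) = 2 := by
        rw [← mul_div_assoc, mul_div_cancel_left₀ _ hκ.ne']
      calc (1 / 2 - ε₁) * (n * T) * (2 / (1 / 2 - ε₁))
          = (1 / 2 - ε₁) * (2 / (1 / 2 - ε₁)) * (n * T) := by ring
        _ = n * T + n * T := by rw [h5]; ring
    rw [h3, hQe]
    apply mul_le_mul_of_nonneg_right _ hN0
    rw [hNe]
    exact (Real.log_le_iff_le_exp (by linarith)).1 g2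
  set W : ℝ := 1 + Real.log Q + Real.log M with hW
  have hWe : W = 1 + (Real.log D + n * T) + (1 / 2 - ε₁) * (n * T) := by
    rw [hW, hlogQ, hlogM]
  have hlD : 0 ≤ Real.log D := Real.log_nonneg hD1
  have hW0 : 0 ≤ W := by rw [hWe]; positivity
  -- the threshold
  set L : ℝ := Real.exp (16 * E * y) with hL
  have hL2 : 2 ≤ L := by
    have h3 : (16 : ℝ) * E * y + 1 ≤ L := Real.add_one_le_exp _
    have h4 : 1 ≤ (E : ℝ) * y := one_le_mul_of_one_le_of_one_le hE' hy1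
    linarith
  have hL1 : 1 ≤ L := by linarith
  have hlogL : Real.log L = 16 * E * y := Real.log_exp _
  -- the two parts
  set Xa := X.filter fun p => nm p.1 * nm p.2 < L with hXa
  set Xb := X.filter fun p => ¬ nm p.1 * nm p.2 < L with hXb
  rw [← Finset.sum_filter_add_sum_filter_not X (fun p => nm p.1 * nm p.2 < L)]
  have parta : ∑ p ∈ Xa, ‖Dr m Q M p.1 p.2‖ ≤
      (C1 * W ^ B * rc m + C2 / Real.log M) * (|C3| * (1 + 16 * E * y) ^ E') := by
    have hq0 : (q : ℝ) = Real.exp T := by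
      have h3 : (q : ℝ) ≠ 0 := by
        intro h0
        rw [hT, h0, Real.log_zero] at hT0
        exact lt_irrefl _ hT0
      have h4 : 0 ≤ (q : ℝ) := Nat.cast_nonneg _
      rw [hT, Real.exp_log (lt_of_le_of_ne h4 (Ne.symm h3))]
    have hLq : L < qd q m := by
      rw [hm, SRq_qd q hq.sq.1, hq0, hL]
      exact Real.exp_lt_exp.mpr g1
    have hprop : ∀ p ∈ Xa, p ∈ CP m m ∧ p ≠ (⊤, ⊤) ∧ nm p.1 * nm p.2 < L ∧
        Ideal.absNorm p.1 = Ideal.absNorm p.2 := by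
      intro p hp
      rw [hXa, Finset.mem_filter] at hp
      obtain ⟨h3, h4⟩ := hX p hp.1
      refine ⟨h3, h4, hp.2, ?_⟩
      exact (hNCG F q hq.sq m le_rfl p h3).2.1 (hp.2.trans hLq)
    have hterm : ∀ p ∈ Xa, ‖Dr m Q M p.1 p.2‖ ≤ (C1 * W ^ B * rc m + C2 / Real.log M) *
        (wt p * (1 + Real.log (nm p.1 * nm p.2)) ^ 2) := by
      intro p hp
      obtain ⟨⟨i1, i2, i3, i4, i5, -⟩, h4, h5, h6⟩ := hprop p hp
      have j1 := SRq_nm_ge i1
      have j2 := SRq_nm_ge i2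
      have hw := SRq_wt_nonneg p
      have hlog0 : 0 ≤ Real.log (nm p.1 * nm p.2) :=
        Real.log_nonneg (one_le_mul_of_one_le_of_one_le j1 j2)
      have hlog1 : 1 ≤ (1 + Real.log (nm p.1 * nm p.2)) ^ 2 :=
        one_le_pow₀ (by linarith)
      have ht1 : p.1 ≠ ⊤ := by
        intro h7
        rw [h7, Ideal.absNorm_top] at h6
        apply h4
        apply Prod.ext
        · exact h7
        · exact Ideal.absNorm_eq_one_iff.1 h6.symm
      have ht2 : p.2 ≠ ⊤ := by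
        intro h7
        rw [h7, Ideal.absNorm_top] at h6
        exact ht1 (Ideal.absNorm_eq_one_iff.1 h6)
      have hsm : nm p.1 * nm p.2 ≤ M ^ δ := by
        refine h5.le.trans ?_
        rw [hL, hMe, ← Real.exp_mul]
        apply Real.exp_le_exp.mpr
        linarith
      have k1 := hRS m Q M p.1 p.2 hmb hQ1 hM1 i1 i2 i3 i4 i5
      have k2 := hDEg M Q hM0 hMQ hQM p.1 p.2 i1 i2 ht1 ht2 i3 hsm
      have k3 : ‖Dr m Q M p.1 p.2‖ ≤ ‖Dr m Q M p.1 p.2 - Dd (K := F) ⊤ Q M p.1 p.2‖ +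
          ‖Dd (K := F) ⊤ Q M p.1 p.2‖ := by
        have := norm_add_le (Dr m Q M p.1 p.2 - Dd (K := F) ⊤ Q M p.1 p.2)
          (Dd (K := F) ⊤ Q M p.1 p.2)
        rwa [sub_add_cancel] at this
      have k4 : C1 * wt p * W ^ B * rc m ≤
          C1 * W ^ B * rc m * (wt p * (1 + Real.log (nm p.1 * nm p.2)) ^ 2) := by
        have h7 : 0 ≤ C1 * wt p * W ^ B * rc m := by positivity
        calc C1 * wt p * W ^ B * rc m = C1 * wt p * W ^ B * rc m * 1 := (mul_one _).symm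
          _ ≤ C1 * wt p * W ^ B * rc m * (1 + Real.log (nm p.1 * nm p.2)) ^ 2 :=
            mul_le_mul_of_nonneg_left hlog1 h7
          _ = _ := by ring
      calc ‖Dr m Q M p.1 p.2‖ ≤ C1 * wt (p.1, p.2) * W ^ B * rc m +
            C2 / Real.log M * wt (p.1, p.2) * (1 + Real.log (nm p.1 * nm p.2)) ^ 2 :=
            k3.trans (add_le_add k1 k2)
        _ ≤ C1 * W ^ B * rc m * (wt p * (1 + Real.log (nm p.1 * nm p.2)) ^ 2) +
            C2 / Real.log M * wt p * (1 + Real.log (nm p.1 * nm p.2)) ^ 2 :=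
            add_le_add k4 le_rfl
        _ = _ := by ring
    refine (Finset.sum_le_sum hterm).trans ?_
    rw [← Finset.mul_sum]
    have hcoef : 0 ≤ C1 * W ^ B * rc m + C2 / Real.log M := by
      have : 0 ≤ Real.log M := Real.log_nonneg hM1
      positivity
    apply mul_le_mul_of_nonneg_left _ hcoef
    have k5 := hSNO L Xa hL1 (by
      intro p hp
      obtain ⟨⟨i1, i2, -⟩, -, h5, h6⟩ := hprop p hp
      refine ⟨i1, i2, h6, ?_⟩
      refine le_trans ?_ h5.le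
      exact le_mul_of_one_le_right (by linarith [SRq_nm_ge i1]) (SRq_nm_ge i2))
    refine k5.trans ?_
    rw [hlogL]
    apply mul_le_mul_of_nonneg_right (le_abs_self _)
    have : 0 ≤ (16 : ℝ) * E * y := by positivity
    positivity
  have partb : ∑ p ∈ Xb, ‖Dr m Q M p.1 p.2‖ ≤
      C4 * W ^ 4 * (C5 * (Real.exp (-(4 * E * y)) + D * Real.exp (-y))) := by
    have hprop : ∀ p ∈ Xb, p ∈ CP m m ∧ L ≤ nm p.1 * nm p.2 := by
      intro p hp
      rw [hXb, Finset.mem_filter] at hp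
      exact ⟨(hX p hp.1).1, not_lt.1 hp.2⟩
    have hterm : ∀ p ∈ Xb, ‖Dr m Q M p.1 p.2‖ ≤ C4 * W ^ 4 *
        (wt p * min 1 ((Q * M ^ 2 / (nm p.1 * nm p.2)) ^ 2)) := by
      intro p hp
      obtain ⟨⟨i1, i2, i3, i4, i5, -⟩, h4⟩ := hprop p hp
      refine (hDTr m Q M p.1 p.2 hQ1 hM1 i1 i2 i3).trans (le_of_eq ?_)
      ring
    refine (Finset.sum_le_sum hterm).trans ?_
    rw [← Finset.mul_sum]
    apply mul_le_mul_of_nonneg_left _ (by positivity)
    have hY1 : 1 ≤ Q * M ^ 2 := one_le_mul_of_one_le_of_one_le hQ1 (one_le_pow₀ hM1)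
    have huc' : (uc m : ℝ) ≤ L ^ (1 / 16 : ℝ) := by
      refine huc.trans (le_of_eq ?_)
      rw [hL, ← Real.exp_mul, ← hxy, ← Real.exp_nat_mul]
      congr 1
      ring
    refine (hCHT m m L (Q * M ^ 2) Xb hmb le_rfl hL2 hY1 huc' hprop).trans ?_
    apply mul_le_mul_of_nonneg_left _ hC5.le
    apply add_le_add
    · rw [hL, ← Real.exp_mul]
      apply Real.exp_le_exp.mpr
      linarith
    · have hYe : Q * M ^ 2 = D * Real.exp ((2 - 2 * ε₁) * (n * T)) := by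
        rw [hQe, hNe, hMe, ← Real.exp_nat_mul, mul_assoc, ← Real.exp_add]
        congr 2
        push_cast
        ring
      have hpow : (Q * M ^ 2) ^ (1 / 2 + ε) ≤
          D * Real.exp ((1 - 3 * ε₁ / 4) * (n * T)) := by
        rw [hYe, Real.mul_rpow (by positivity) (Real.exp_pos _).le, ← Real.exp_mul]
        apply mul_le_mul
        · calc D ^ (1 / 2 + ε) ≤ D ^ (1 : ℝ) :=
              Real.rpow_le_rpow_of_exponent_le hD1 (by linarith)
            _ = D := Real.rpow_one _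
        · apply Real.exp_le_exp.mpr
          have h3 : (2 - 2 * ε₁) * (n * T) * (1 / 2 + ε) =
              ((2 - 2 * ε₁) * (1 / 2 + ε)) * (n * T) := by ring
          rw [h3]
          apply mul_le_mul_of_nonneg_right _ hnT0.le
          have h4 : (2 - 2 * ε₁) * (1 / 2 + ε) = 1 - ε₁ + 2 * ε - 2 * (ε₁ * ε) := by ring
          have h5 : 0 ≤ ε₁ * ε := by positivity
          rw [h4]
          linarith
        · exact (Real.exp_pos _).le
        · positivity
      have huc2 : (uc m : ℝ) ≤ Real.exp (E * y) := by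
        refine huc.trans (le_of_eq ?_)
        rw [← hxy, ← Real.exp_nat_mul]
      have huc0 : 0 ≤ (uc m : ℝ) := Nat.cast_nonneg _
      calc (Q * M ^ 2) ^ (1 / 2 + ε) * uc m / nm m
          ≤ D * Real.exp ((1 - 3 * ε₁ / 4) * (n * T)) * Real.exp (E * y) / N := by
            apply div_le_div_of_nonneg_right _ hN0
            exact mul_le_mul hpow huc2 huc0 (by positivity)
        _ = D * Real.exp (E * y - 3 * ε₁ / 4 * (n * T)) := by
            rw [hNe, mul_assoc, ← Real.exp_add, mul_div_assoc, ← Real.exp_sub]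
            congr 2
            ring
        _ ≤ D * Real.exp (-y) :=
            mul_le_mul_of_nonneg_left (Real.exp_le_exp.mpr g5) (by linarith)
  rw [hWe, hlogM] at parta
  rw [hWe] at partb
  exact (add_le_add parta partb).trans g6

end Pool.Agent.H88.SM
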