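import Pool.Agent.H88.SM.SRq

/-!
# MP_347b49_nt, special moduli: real numbers for the relations with shifts (helper88)
-/

set_option autoImplicit false

open Filter Topology

namespace Pool.Agent.H88.SM

/-- all size conditions and the last estimate -/
theorem SRqz_real (n D Λ T0 ε₁ C1 C2 C3 C4 C5 M0 δ η : ℝ) (E E' A B k4 : ℕ) (hn : 1 ≤ n)
    (hD : 1 ≤ D)
    (hE : 1 ≤ E) (hA : E' + 1 ≤ A) (h1 : 0 < ε₁) (h2 : ε₁ < 1 / 2) (hC1 : 0 < C1) (hC2 : 0 < C2)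
    (hC3 : 0 ≤ C3) (hC4 : 0 < C4) (hC5 : 0 < C5) (hδ : 0 < δ) (hη : 0 < η) :
    ∃ y0 : ℝ, 1 ≤ y0 ∧ ∀ y T rc : ℝ, y0 ≤ y → y ^ (A + 1) / 2 ≤ T → T ≤ 2 * y ^ (A + 1) →
      0 ≤ rc → rc ≤ 2 * n * y ^ A * Real.exp (-(y / 2)) →
      16 * E * y < T ∧ |Λ| ≤ ε₁ * (n * T) ∧ T0 ≤ T ∧
      Real.log (max M0 1) ≤ (1 / 2 - ε₁) * (n * T) ∧
      16 * E * y ≤ δ * ((1 / 2 - ε₁) * (n * T)) ∧
      E * y - 3 * ε₁ / 4 * (n * T) ≤ -y ∧
      (C1 * (1 + (Λ + n * T) + (1 / 2 - ε₁) * (n * T)) ^ B * rc +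
        C2 / ((1 / 2 - ε₁) * (n * T))) * (C3 * (1 + 16 * E * y) ^ E') +
      C4 * (1 + (Λ + n * T) + (1 / 2 - ε₁) * (n * T)) ^ k4 *
        (C5 * (Real.exp (-(4 * E * y)) + D * Real.exp (-y))) ≤ η := by
  have hE' : (1 : ℝ) ≤ E := by exact_mod_cast hE
  have hκ : 0 < 1 / 2 - ε₁ := by linarith
  set κ : ℝ := 1 / 2 - ε₁ with hκdef
  have hκ1 : κ ≤ 1 / 2 := by rw [hκdef]; linarith
  set c2 : ℝ := 1 + |Λ| + 3 * n with hc2
  have hc2p : 0 < c2 := by positivity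
  set K1 : ℝ := C2 / (κ / 2) * (C3 * (17 * E) ^ E') with hK1
  set K2 : ℝ := C1 * c2 ^ B * (2 * n) * (C3 * (17 * E) ^ E') + C4 * c2 ^ k4 * (C5 * (1 + D)) with hK2
  set k : ℕ := (A + 1) * B + A + E' + (A + 1) * k4 with hk
  have hev : ∀ᶠ y : ℝ in atTop, 1 ≤ y ∧ 32 * E < y ∧ 2 * |Λ| / ε₁ ≤ y ∧ 2 * T0 ≤ y ∧
      2 * Real.log (max M0 1) / κ ≤ y ∧ 32 * E / (δ * κ) ≤ y ∧ 8 * (E + 1) / (3 * ε₁) ≤ y ∧
      K1 / y + K2 * (y ^ k * Real.exp (-(y / 2))) ≤ η := by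
    filter_upwards [eventually_ge_atTop 1, eventually_gt_atTop (32 * (E : ℝ)),
      eventually_ge_atTop (2 * |Λ| / ε₁), eventually_ge_atTop (2 * T0),
      eventually_ge_atTop (2 * Real.log (max M0 1) / κ),
      eventually_ge_atTop (32 * E / (δ * κ)), eventually_ge_atTop (8 * (E + 1) / (3 * ε₁)),
      SRq_lim K1 K2 η k hη] with y a1 a2 a3 a3' a4 a5 a6 a7
    exact ⟨a1, a2, a3, a3', a4, a5, a6, a7⟩
  obtain ⟨y0, hy0⟩ := eventually_atTop.1 hev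
  refine ⟨max y0 1, le_max_right _ _, ?_⟩
  intro y T rc hy hT1 hT2 hrc0 hrc
  obtain ⟨a1, a2, a3, a3', a4, a5, a6, a7⟩ := hy0 y ((le_max_left _ _).trans hy)
  have hy0' : 0 < y := by linarith
  -- powers of `y`
  have p1 : y ≤ y ^ (A + 1) := le_self_pow₀ a1 (by omega)
  have p2 : y ^ 2 ≤ y ^ (A + 1) := pow_le_pow_right₀ a1 (by omega)
  have hT : y ^ 2 / 2 ≤ T := by linarith
  have hT0 : 0 < T := lt_of_lt_of_le (by positivity) hT
  have hnT : T ≤ n * T := le_mul_of_one_le_left hT0.le hn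
  have hnT0 : 0 < n * T := by linarith
  have hYp : 0 < y ^ (A + 1) := by positivity
  have hyy : y ≤ y ^ 2 := le_self_pow₀ a1 (by norm_num)
  have hEy : y ≤ E * y := le_mul_of_one_le_left hy0'.le hE'
  have q1 : 16 * E * y < T := by
    have h3 : 32 * E * y < y * y := mul_lt_mul_of_pos_right a2 hy0'
    linarith
  have q2 : |Λ| ≤ ε₁ * (n * T) := by
    rw [div_le_iff₀ h1] at a3
    have h3 : ε₁ * (y ^ 2 / 2) ≤ ε₁ * (n * T) := mul_le_mul_of_nonneg_left (by linarith) h1.le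
    have h4 : y * ε₁ ≤ y ^ 2 * ε₁ := mul_le_mul_of_nonneg_right hyy h1.le
    linarith
  have q2' : T0 ≤ T := by linarith
  have q3 : Real.log (max M0 1) ≤ κ * (n * T) := by
    rw [div_le_iff₀ hκ] at a4
    have h3 : κ * (y ^ 2 / 2) ≤ κ * (n * T) := mul_le_mul_of_nonneg_left (by linarith) hκ.le
    have h4 : y * κ ≤ y ^ 2 * κ := mul_le_mul_of_nonneg_right hyy hκ.le
    linarith
  have q4 : 16 * E * y ≤ δ * (κ * (n * T)) := by
    rw [div_le_iff₀ (by positivity)] at a5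
    have h3 : δ * κ * (y ^ 2 / 2) ≤ δ * κ * (n * T) :=
      mul_le_mul_of_nonneg_left (by linarith) (by positivity)
    have h4 : 32 * E * y ≤ y * (δ * κ) * y := mul_le_mul_of_nonneg_right a5 hy0'.le
    linarith
  have q5 : E * y - 3 * ε₁ / 4 * (n * T) ≤ -y := by
    rw [div_le_iff₀ (by positivity)] at a6
    have h3 : 3 * ε₁ / 4 * (y ^ 2 / 2) ≤ 3 * ε₁ / 4 * (n * T) :=
      mul_le_mul_of_nonneg_left (by linarith) (by positivity)
    have h4 : 8 * (E + 1) * y ≤ y * (3 * ε₁) * y := mul_le_mul_of_nonneg_right a6 hy0'.le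
    linarith
  refine ⟨q1, q2, q2', q3, q4, q5, ?_⟩
  set W : ℝ := 1 + (Λ + n * T) + κ * (n * T) with hW
  have hW0 : 0 ≤ W := by
    have h3 := neg_abs_le Λ
    have h4 : ε₁ * (n * T) ≤ 1 / 2 * (n * T) := mul_le_mul_of_nonneg_right h2.le hnT0.le
    have h5 : 0 ≤ κ * (n * T) := by positivity
    rw [hW]
    linarith
  have hW1 : W ≤ c2 * y ^ (A + 1) := by
    have h3 : n * T ≤ n * (2 * y ^ (A + 1)) :=
      mul_le_mul_of_nonneg_left hT2 (by linarith)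
    have h4 : κ * (n * T) ≤ 1 / 2 * (n * T) := mul_le_mul_of_nonneg_right hκ1 hnT0.le
    have h5 : 1 ≤ y ^ (A + 1) := one_le_pow₀ a1
    have h6 : (1 + |Λ|) * 1 ≤ (1 + |Λ|) * y ^ (A + 1) :=
      mul_le_mul_of_nonneg_left h5 (by positivity)
    have h7 := le_abs_self Λ
    rw [hW, hc2]
    linarith
  have hL : (1 + 16 * E * y) ^ E' ≤ (17 * E) ^ E' * y ^ E' := by
    rw [← mul_pow]
    apply pow_le_pow_left₀ (by positivity)
    linarith
  have e0 : 0 < Real.exp (-(y / 2)) := Real.exp_pos _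
  have ypow : ∀ a : ℕ, a ≤ k → y ^ a ≤ y ^ k := fun a ha => pow_le_pow_right₀ a1 ha
  -- the first part
  have t1 : C1 * W ^ B * rc * (C3 * (1 + 16 * E * y) ^ E') ≤
      C1 * c2 ^ B * (2 * n) * (C3 * (17 * E) ^ E') * (y ^ k * Real.exp (-(y / 2))) := by
    calc C1 * W ^ B * rc * (C3 * (1 + 16 * E * y) ^ E')
        ≤ C1 * (c2 * y ^ (A + 1)) ^ B * (2 * n * y ^ A * Real.exp (-(y / 2))) *
          (C3 * ((17 * E) ^ E' * y ^ E')) := by
          gcongr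
      _ = C1 * c2 ^ B * (2 * n) * (C3 * (17 * E) ^ E') *
          (y ^ ((A + 1) * B + A + E') * Real.exp (-(y / 2))) := by
          rw [mul_pow, ← pow_mul, pow_add, pow_add]
          ring
      _ ≤ _ := by
          have := ypow ((A + 1) * B + A + E') (by omega)
          gcongr
  have t2 : C2 / (κ * (n * T)) * (C3 * (1 + 16 * E * y) ^ E') ≤ K1 / y := by
    have h3 : κ / 2 * y ^ (A + 1) ≤ κ * (n * T) := by
      have h5 : κ * (y ^ (A + 1) / 2) ≤ κ * (n * T) :=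
        mul_le_mul_of_nonneg_left (hT1.trans hnT) hκ.le
      linarith
    have h4 : y ^ E' * y ≤ y ^ (A + 1) := by
      rw [← pow_succ]
      exact pow_le_pow_right₀ a1 (by omega)
    calc C2 / (κ * (n * T)) * (C3 * (1 + 16 * E * y) ^ E')
        ≤ C2 / (κ / 2 * y ^ (A + 1)) * (C3 * ((17 * E) ^ E' * y ^ E')) := by
          gcongr
      _ = K1 * (y ^ E' / y ^ (A + 1)) := by
          rw [hK1]
          field_simp
      _ ≤ K1 * (1 / y) := by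
          have hK1' : 0 ≤ K1 := by rw [hK1]; positivity
          apply mul_le_mul_of_nonneg_left _ hK1'
          rw [div_le_div_iff₀ hYp hy0', one_mul]
          exact h4
      _ = K1 / y := by ring
  have t3 : C4 * W ^ k4 * (C5 * (Real.exp (-(4 * E * y)) + D * Real.exp (-y))) ≤
      C4 * c2 ^ k4 * (C5 * (1 + D)) * (y ^ k * Real.exp (-(y / 2))) := by
    have h3 : Real.exp (-(4 * E * y)) ≤ Real.exp (-(y / 2)) := by
      apply Real.exp_le_exp.mpr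
      linarith
    have h4 : Real.exp (-y) ≤ Real.exp (-(y / 2)) := by
      apply Real.exp_le_exp.mpr
      linarith
    calc C4 * W ^ k4 * (C5 * (Real.exp (-(4 * E * y)) + D * Real.exp (-y)))
        ≤ C4 * (c2 * y ^ (A + 1)) ^ k4 *
          (C5 * (Real.exp (-(y / 2)) + D * Real.exp (-(y / 2)))) := by
          gcongr
      _ = C4 * c2 ^ k4 * (C5 * (1 + D)) * (y ^ ((A + 1) * k4) * Real.exp (-(y / 2))) := by
          rw [mul_pow, ← pow_mul]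
          ring
      _ ≤ _ := by
          have := ypow ((A + 1) * k4) (by omega)
          gcongr
  calc (C1 * W ^ B * rc + C2 / (κ * (n * T))) * (C3 * (1 + 16 * E * y) ^ E') +
      C4 * W ^ k4 * (C5 * (Real.exp (-(4 * E * y)) + D * Real.exp (-y)))
      = C1 * W ^ B * rc * (C3 * (1 + 16 * E * y) ^ E') +
        C2 / (κ * (n * T)) * (C3 * (1 + 16 * E * y) ^ E') +
        C4 * W ^ k4 * (C5 * (Real.exp (-(4 * E * y)) + D * Real.exp (-y))) := by ring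
    _ ≤ C1 * c2 ^ B * (2 * n) * (C3 * (17 * E) ^ E') * (y ^ k * Real.exp (-(y / 2))) + K1 / y +
        C4 * c2 ^ k4 * (C5 * (1 + D)) * (y ^ k * Real.exp (-(y / 2))) := by
        linarith
    _ = K1 / y + K2 * (y ^ k * Real.exp (-(y / 2))) := by
        rw [hK2]
        ring
    _ ≤ η := a7

/-- one term, small relations -/
theorem SRqz_ta {C1 C2 X1 X2 U W rc lM w lg tB : ℝ} {k1 : ℕ} (hC1 : 0 ≤ C1) (hC2 : 0 ≤ C2)
    (hX1 : X1 ≤ tB * U) (hX2 : X2 ≤ U) (hU : 0 ≤ U) (hW : 0 ≤ W) (hrc : 0 ≤ rc) (hlM : 0 ≤ lM)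
    (hw : 0 ≤ w) (hlg : 0 ≤ lg) (htB : 0 ≤ tB) :
    C1 * X1 * w * W ^ k1 * rc + C2 / lM * X2 * w * (1 + lg) ≤
      U * (C1 * tB * W ^ k1 * rc + C2 / lM) * (w * (1 + lg) ^ 2) := by
  have h1 : 1 ≤ (1 + lg) ^ 2 := one_le_pow₀ (by linarith)
  have h2 : 1 + lg ≤ (1 + lg) ^ 2 := le_self_pow₀ (by linarith) two_ne_zero
  have e1 : C1 * X1 * w * W ^ k1 * rc ≤ U * (C1 * tB * W ^ k1 * rc) * (w * (1 + lg) ^ 2) := by
    calc C1 * X1 * w * W ^ k1 * rc ≤ C1 * (tB * U) * w * W ^ k1 * rc := by gcongr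
      _ = C1 * (tB * U) * w * W ^ k1 * rc * 1 := (mul_one _).symm
      _ ≤ C1 * (tB * U) * w * W ^ k1 * rc * (1 + lg) ^ 2 :=
        mul_le_mul_of_nonneg_left h1 (by positivity)
      _ = _ := by ring
  have e2 : C2 / lM * X2 * w * (1 + lg) ≤ U * (C2 / lM) * (w * (1 + lg) ^ 2) := by
    calc C2 / lM * X2 * w * (1 + lg) ≤ C2 / lM * U * w * (1 + lg) ^ 2 := by gcongr
      _ = _ := by ring
  calc C1 * X1 * w * W ^ k1 * rc + C2 / lM * X2 * w * (1 + lg)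
      ≤ U * (C1 * tB * W ^ k1 * rc) * (w * (1 + lg) ^ 2) +
        U * (C2 / lM) * (w * (1 + lg) ^ 2) := add_le_add e1 e2
    _ = _ := by ring

/-- one term, large relations -/
theorem SRqz_tb {C4 X U W w tB z : ℝ} {k4 : ℕ} (hC4 : 0 ≤ C4) (hX : X ≤ tB * U)
    (hW : 0 ≤ W) (hw : 0 ≤ w) (hz : 0 ≤ z) :
    C4 * X * w * W ^ k4 * z ≤ U * (C4 * tB * W ^ k4) * (w * z) := by
  calc C4 * X * w * W ^ k4 * z ≤ C4 * (tB * U) * w * W ^ k4 * z := by gcongr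
    _ = _ := by ring

/-- the exponent of the large relations -/
theorem SRqz_exp {Λ ε ε₁ t : ℝ} (h1 : 0 < ε₁) (hε0 : 0 < ε) (hε1 : ε ≤ 1 / 64)
    (hε2 : ε ≤ ε₁ / 8) (ht : 0 ≤ t) :
    (Λ + (2 - 2 * ε₁) * t) * (1 / 2 + ε) ≤ |Λ| + (1 - 3 * ε₁ / 4) * t := by
  have h3 : (Λ + (2 - 2 * ε₁) * t) * (1 / 2 + ε) =
      Λ * (1 / 2 + ε) + ((2 - 2 * ε₁) * (1 / 2 + ε)) * t := by ring
  rw [h3]
  apply add_le_add
  · calc Λ * (1 / 2 + ε) ≤ |Λ| * (1 / 2 + ε) :=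
        mul_le_mul_of_nonneg_right (le_abs_self Λ) (by linarith)
      _ ≤ |Λ| * 1 := mul_le_mul_of_nonneg_left (by linarith) (abs_nonneg _)
      _ = |Λ| := mul_one _
  · apply mul_le_mul_of_nonneg_right _ ht
    have h4 : (2 - 2 * ε₁) * (1 / 2 + ε) = 1 - ε₁ + 2 * ε - 2 * (ε₁ * ε) := by ring
    have h5 : 0 ≤ ε₁ * ε := by positivity
    rw [h4]
    linarith

end Pool.Agent.H88.SM
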